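import Pool.Agent.Q296.NF.Defs

/-!
# The Abel-Jacobi map on the motives of hypersurfaces over number fields (after Q200/HS/AJ)
-/

open CategoryTheory MonoidalCategory

universe v u w w'

namespace Pool.Agent.Q296.NF

open Pool.Agent.Q28.HJ (pow powAdd retRight retLeft retIso shuffle)
open Pool.Agent.Q200.HS (MotData Covers Passes covers_of_retract reach Piece)

/-- choice of the pair `(n, d)` -/
lemma choose_pair {S : Set (ℕ × ℕ)} (hS : BothCofinal S) {ω φ : ℕ → ℕ}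
    (hω : Filter.Tendsto ω Filter.atTop Filter.atTop)
    (hφ : Filter.Tendsto φ Filter.atTop Filter.atTop) (a s i D : ℕ) (hD : 0 < D) :
    ∃ n d k : ℕ, (n, d) ∈ S ∧ D ∣ d ∧ 0 < d ∧ n = a + 2 * (s + k) ∧ a ≤ ω n ∧
      2 * (i + k) ≤ n + φ n ∧ n ≤ 2 * (i + k) + φ n := by
  obtain ⟨N₀, hN₀⟩ := Filter.eventually_atTop.1 (hω.eventually_ge_atTop a)
  obtain ⟨N₁, hN₁⟩ := Filter.eventually_atTop.1 (hφ.eventually_ge_atTop (a + 2 * s + 2 * i))
  obtain ⟨⟨n, d⟩, hp, hpar, hn, hdvd, hd⟩ := hS a (N₀ + N₁ + a + 2 * s) D hD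
  simp only at hpar hn hdvd hd
  have h0 := hN₀ n (by omega)
  have h1 := hN₁ n (by omega)
  refine ⟨n, d, (n - a) / 2 - s, hp, hdvd, hd, by omega, h0, by omega, by omega⟩

namespace AJData

variable {𝓜 : Type u} [Category.{v} 𝓜] [Preadditive 𝓜] [MonoidalCategory 𝓜]
  {T : AJData.{v, u, w, w'} 𝓜}

lemma push_zero (hT : T.Facts) (i : ℕ) {M N : 𝓜} (g : M ⟶ N) : T.push i g (0 : T.J i M) = 0 := by
  have := hT.push_add i g 0 0
  rw [add_zero] at this
  exact left_eq_add.1 this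

lemma tw_zero (hT : T.Facts) (i : ℕ) {M : 𝓜} : T.tw i (0 : T.J i M) = 0 := by
  have := hT.tw_add i (0 : T.J i M) 0
  rw [add_zero] at this
  exact left_eq_add.1 this

lemma passes [MonoidalPreadditive 𝓜] (hT : T.Facts) : Passes T.L T.Inj where
  cover i M h := by
    obtain ⟨n, N, a, b, h1, h2⟩ := h
    intro f hf hf0
    have key : ∀ j, f ≫ a j = 0 := fun j =>
      h1 j (f ≫ a j) (hT.null_comp f (a j) hf)
        (by rw [hT.natural i f (a j) hf, hf0, push_zero hT])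
    have : f = f ≫ 𝟙 M := (Category.comp_id _).symm
    rw [this, ← h2, Preadditive.comp_sum]
    exact Finset.sum_eq_zero (fun j _ => by
      rw [← Category.assoc, key, Limits.zero_comp])
  untwist i M h := by
    intro f hf hf0
    apply hT.base.faithful
    rw [MonoidalPreadditive.zero_whiskerRight]
    exact h (f ▷ T.L) (hT.null_tensor f hf) (by rw [hT.twist i f hf, hf0, tw_zero hT])

variable [MonoidalPreadditive 𝓜] [BraidedCategory 𝓜]

/-- almost diagonal hypersurfaces suffice -/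
lemma gen_of_diagonal (hT : T.Facts) (S : Set (ℕ × ℕ)) (hS : BothCofinal S) (ω φ : ℕ → ℕ)
    (hω : Filter.Tendsto ω Filter.atTop Filter.atTop)
    (hφ : Filter.Tendsto φ Filter.atTop Filter.atTop)
    (h : ∀ X W : T.Hyp, Relation.ReflTransGen T.Susp X W → (T.dim W, T.deg W) ∈ S →
      T.dim X ≤ ω (T.dim W) → ∀ m, 2 * m ≤ T.dim W + φ (T.dim W) →
        T.dim W ≤ 2 * m + φ (T.dim W) → T.Inj m (T.mot W)) {M : 𝓜} (hM : T.Gen M) (i : ℕ) :
    T.Inj i M := by
  refine (passes hT).gen hT.base (fun X s i => ?_) hM i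
  obtain ⟨n, d, k, h1, h2, h3, h4, h5, h6, h7⟩ := choose_pair hS hω hφ (T.dim X) s i
    (2 * T.deg X) (by have := hT.base.deg_pos X; omega)
  refine (passes hT).hyp hT.base X h2 h3 h4 (fun X' W a1 a2 a3 a4 => ?_)
  obtain ⟨R⟩ := hT.base.summand W
  refine (passes hT).retract _ R (h X' W a2 ?_ ?_ _ ?_ ?_)
  · rw [a3, a4]; exact h1
  · rw [a1, a4]; exact h5
  · rw [a4]; exact h6
  · rw [a4]; exact h7

omit [MonoidalPreadditive 𝓜] [BraidedCategory 𝓜] in
lemma explicit (hT : T.Facts) {N : ℕ} {M : 𝓜} (hM : T.IsProd N M) :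
    (∀ i, T.Inj i M) ↔ (∀ i, 2 * i ≠ N → 2 * i ≠ N + 1 → ∀ f : pow T.L i ⟶ M, f = 0) ∧
      (∀ i, 2 * i = N → ∀ f : pow T.L i ⟶ M, T.null f → f = 0) ∧
        ∀ i, 2 * i = N + 1 → T.Inj i M := by
  constructor
  · intro h
    refine ⟨fun i h1 h2 f => ?_, fun i h1 f hf => ?_, fun i _ => h i⟩
    · exact h i f (hT.weight hM i h1 f) (hT.jacobian hM i h2 _)
    · exact h i f hf (hT.jacobian hM i (by omega) _)
  · rintro ⟨h1, h2, h3⟩ i
    by_cases e1 : 2 * i = N + 1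
    · exact h3 i e1
    by_cases e2 : 2 * i = N
    · exact fun f hf _ => h2 i e2 f hf
    · exact fun f _ _ => h1 i e2 e1 f

omit [MonoidalPreadditive 𝓜] [BraidedCategory 𝓜] in
/-- tensor products of primitive motives are in the class `Gen` -/
lemma gen_isProd (hT : T.Facts) {N : ℕ} {M : 𝓜} (hM : T.IsProd N M) : T.Gen M := by
  induction hM with
  | one X =>
    obtain ⟨R⟩ := hT.base.summand X
    exact .sum (n := 1) (fun _ => T.mot X) (fun _ => R.i) (fun _ => R.r) (fun _ => .mot X)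
      (by simp)
  | tensor _ _ ih₁ ih₂ => exact .tensor ih₁ ih₂

end AJData

/-- main theorem -/
theorem final {K : Type*} {𝓜 : K → Type u} [∀ k, Category.{v} (𝓜 k)]
    [∀ k, MonoidalCategory (𝓜 k)] [∀ k, Preadditive (𝓜 k)] [∀ k, MonoidalPreadditive (𝓜 k)]
    [∀ k, BraidedCategory (𝓜 k)] {F : FieldData.{v, u, w, w'} 𝓜} (hF : F.Facts) (𝒦 : Set K)
    (h𝒦 : ∀ k, ∃ k' ∈ 𝒦, F.le k k') (S : K → Set (ℕ × ℕ)) (hS : ∀ k ∈ 𝒦, BothCofinal (S k))
    (ω φ : K → ℕ → ℕ) (hω : ∀ k ∈ 𝒦, Filter.Tendsto (ω k) Filter.atTop Filter.atTop)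
    (hφ : ∀ k ∈ 𝒦, Filter.Tendsto (φ k) Filter.atTop Filter.atTop) :
    [∀ k ∈ 𝒦, ∀ X W : (F.T k).Hyp, Relation.ReflTransGen (F.T k).Susp X W →
        ((F.T k).dim W, (F.T k).deg W) ∈ S k → (F.T k).dim X ≤ ω k ((F.T k).dim W) →
          ∀ m, 2 * m ≤ (F.T k).dim W + φ k ((F.T k).dim W) →
            (F.T k).dim W ≤ 2 * m + φ k ((F.T k).dim W) → (F.T k).Inj m ((F.T k).mot W),
      ∀ k, ∀ (X : (F.T k).Hyp) (i : ℕ), (F.T k).Inj i ((F.T k).mot X),
      ∀ k, ∀ M : 𝓜 k, (F.T k).Gen M → ∀ i, (F.T k).Inj i M,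
      ∀ k, ∀ (N : ℕ) (M : 𝓜 k), (F.T k).IsProd N M →
        (∀ i, 2 * i ≠ N → 2 * i ≠ N + 1 → ∀ f : pow (F.T k).L i ⟶ M, f = 0) ∧
          (∀ i, 2 * i = N → ∀ f : pow (F.T k).L i ⟶ M, (F.T k).null f → f = 0) ∧
            ∀ i, 2 * i = N + 1 → (F.T k).Inj i M].TFAE := by
  tfae_have 1 → 3 := by
    intro h k M hM i
    obtain ⟨k', hk', hle⟩ := h𝒦 k
    refine (AJData.passes (hF.fields k)).gen (hF.fields k).base (fun X s j => ?_) hM i
    obtain ⟨X', hX'⟩ := hF.bc_mot hle X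
    obtain ⟨R⟩ := (hF.fields k).base.summand X
    have hbc := hF.bc_tensor hX' (hF.bc_pow hle s)
    have hgen : ∀ s, (F.T k').Gen (pow (F.T k').L s) := by
      intro s
      induction s with
      | zero => exact .unit
      | succ s ih => exact .tensor ih .lef
    have h1 := AJData.gen_of_diagonal (hF.fields k') (S k') (hS k' hk') (ω k') (φ k')
      (hω k' hk') (hφ k' hk') (h k' hk') (.tensor (.mot X') (hgen s)) j
    exact (AJData.passes (hF.fields k)).retract j (retRight R _) (hF.inj hle hbc j h1)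
  tfae_have 3 → 2 := fun h k X i => h k _ (.mot X) i
  tfae_have 2 → 1 := fun h k _ X W _ _ _ m _ _ => h k W m
  tfae_have 3 → 4 := fun h k N M hM =>
    (AJData.explicit (hF.fields k) hM).1 (h k M (AJData.gen_isProd (hF.fields k) hM))
  tfae_have 4 → 3 := by
    intro h k M hM i
    refine (AJData.passes (hF.fields k)).gen (hF.fields k).base (fun X s j => ?_) hM i
    -- `M_X ⊗ L^s` is a summand of a primitive motive of a hypersurface of larger dimension
    obtain ⟨X', W', -, -, -, -, ⟨R⟩⟩ := reach (hF.fields k).base X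
      (n := (F.T k).dim X + 2 * s) (d := 2 * (F.T k).deg X) (dvd_refl _)
      (by have := (hF.fields k).base.deg_pos X; omega) rfl
    exact (AJData.passes (hF.fields k)).retract _ R
      ((AJData.explicit (hF.fields k) (.one W')).2 (h k _ _ (.one W')) j)
  tfae_finish

end Pool.Agent.Q296.NF
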