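import Pool.Agent.Q296.NF.Main

/-!
# The Abel-Jacobi map over one field: Artin twists
-/

open CategoryTheory MonoidalCategory

universe v u w w'

namespace Pool.Agent.Q296.NF

open Pool.Agent.Q28.HJ (pow powAdd retRight retLeft retIso shuffle)
open Pool.Agent.Q200.HS (MotData Covers Passes covers_of_retract reach Piece)

namespace AJData

variable {𝓜 : Type u} [Category.{v} 𝓜] [Preadditive 𝓜] [MonoidalCategory 𝓜]

/-- `M` is the motive of `X_1 × ⋯ × X_r × Spec F`, `X_j` smooth hypersurfaces over the base field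
`k`, and `F` a finite extension of `k`: by a primitive element, `Spec F` is a hypersurface `Z` of
dimension zero in the projective line over `k`. Equivalently, `M` is the motive of the base change
`(X_1 × ⋯ × X_r)_F`, considered as a variety over `k`. -/
inductive BaseChanged (T : AJData.{v, u, w, w'} 𝓜) : 𝓜 → Prop
  | field (Z : T.Hyp) (hZ : T.dim Z = 0) : BaseChanged T (T.mot Z)
  | times (X : T.Hyp) {M : 𝓜} (hM : BaseChanged T M) : BaseChanged T (T.mot X ⊗ M)

lemma BaseChanged.gen {T : AJData.{v, u, w, w'} 𝓜} {M : 𝓜} (h : BaseChanged T M) : T.Gen M := by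
  induction h with
  | field Z _ => exact .mot Z
  | times X _ ih => exact .tensor (.mot X) ih

variable {T : AJData.{v, u, w, w'} 𝓜} [MonoidalPreadditive 𝓜] [BraidedCategory 𝓜]

/-- main theorem over one field -/
theorem final_one (hT : T.Facts) (S : Set (ℕ × ℕ)) (hS : BothCofinal S) (ω φ : ℕ → ℕ)
    (hω : Filter.Tendsto ω Filter.atTop Filter.atTop)
    (hφ : Filter.Tendsto φ Filter.atTop Filter.atTop) :
    [∀ X W : T.Hyp, Relation.ReflTransGen T.Susp X W → (T.dim W, T.deg W) ∈ S →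
        T.dim X ≤ ω (T.dim W) → ∀ m, 2 * m ≤ T.dim W + φ (T.dim W) →
          T.dim W ≤ 2 * m + φ (T.dim W) → T.Inj m (T.mot W),
      ∀ M : 𝓜, BaseChanged T M → ∀ i, T.Inj i M,
      ∀ M : 𝓜, T.Gen M → ∀ i, T.Inj i M,
      ∀ (N : ℕ) (M : 𝓜), T.IsProd N M →
        (∀ i, 2 * i ≠ N → 2 * i ≠ N + 1 → ∀ f : pow T.L i ⟶ M, f = 0) ∧
          (∀ i, 2 * i = N → ∀ f : pow T.L i ⟶ M, T.null f → f = 0) ∧
            ∀ i, 2 * i = N + 1 → T.Inj i M].TFAE := by
  tfae_have 1 → 3 := fun h M hM i => gen_of_diagonal hT S hS ω φ hω hφ h hM i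
  tfae_have 3 → 2 := fun h M hM i => h M hM.gen i
  tfae_have 2 → 1 := by
    intro h X W _ _ _ m _ _
    obtain ⟨Y, hY, ⟨R⟩⟩ := hT.base.points
    obtain ⟨R'⟩ := hT.base.summand Y
    have h1 := h _ (.times W (.field Y hY)) m
    have R₂ : Retract (T.mot W ⊗ 𝟙_ 𝓜) (T.mot W ⊗ T.mot Y) := retLeft (R.trans R') _
    exact (passes hT).retract m ((retIso (ρ_ _).symm).trans R₂) h1
  tfae_have 3 → 4 := fun h N M hM => (explicit hT hM).1 (h M (gen_isProd hT hM))
  tfae_have 4 → 3 := by
    intro h M hM i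
    refine (passes hT).gen hT.base (fun X s j => ?_) hM i
    obtain ⟨X', W', -, -, -, -, ⟨R⟩⟩ := reach hT.base X (n := T.dim X + 2 * s)
      (d := 2 * T.deg X) (dvd_refl _) (by have := hT.base.deg_pos X; omega) rfl
    exact (passes hT).retract _ R ((explicit hT (.one W')).2 (h _ _ (.one W')) j)
  tfae_finish

end AJData

end Pool.Agent.Q296.NF
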